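import Pool.Agent.H608R3.Lens.Strip

/-!
Hermitian products on a real inner product space that is identified with a complex one, and the
group of rotations of order `p`.
-/

set_option autoImplicit false

open MeasureTheory InnerProductGeometry Filter Topology ComplexConjugate

namespace Pool.Agent.Y830.LS

open Pool.Agent.H608R3.Lens

variable {E W : Type} [NormedAddCommGroup E] [InnerProductSpace ℝ E]
  [NormedAddCommGroup W] [InnerProductSpace ℂ W] (Φ : E ≃ₗᵢ[ℝ] W)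

/-- the Hermitian product -/
noncomputable def hm (x y : E) : ℂ := inner ℂ (Φ x) (Φ y)

lemma inner_eq_hm (x y : E) : inner ℝ x y = (hm Φ x y).re := by
  have h1 : ‖Φ x + Φ y‖ ^ 2 = ‖Φ x‖ ^ 2 + 2 * (inner ℂ (Φ x) (Φ y) : ℂ).re + ‖Φ y‖ ^ 2 :=
    norm_add_sq (𝕜 := ℂ) _ _
  have h2 := norm_add_sq_real x y
  rw [← map_add, Φ.norm_map, Φ.norm_map, Φ.norm_map] at h1
  unfold hm
  linarith

lemma hm_conj (x y : E) : conj (hm Φ x y) = hm Φ y x := inner_conj_symm _ _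

lemma hm_self (x : E) (hx : ‖x‖ = 1) : hm Φ x x = 1 := by
  rw [hm, inner_self_eq_norm_sq_to_K, Φ.norm_map, hx]
  simp

/-- multiplication by a unit complex number on `W` -/
noncomputable def sm (z : Circle) : W ≃ₗᵢ[ℝ] W where
  toLinearEquiv :=
    { toFun := fun w => (z : ℂ) • w
      invFun := fun w => ((z⁻¹ : Circle) : ℂ) • w
      map_add' := fun a b => smul_add _ _ _
      map_smul' := fun r a => by
        show (z : ℂ) • (r • a) = r • ((z : ℂ) • a)
        exact smul_comm _ _ _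
      left_inv := fun w => by
        show ((z⁻¹ : Circle) : ℂ) • ((z : ℂ) • w) = w
        rw [smul_smul, ← Circle.coe_mul, inv_mul_cancel, Circle.coe_one, one_smul]
      right_inv := fun w => by
        show (z : ℂ) • (((z⁻¹ : Circle) : ℂ) • w) = w
        rw [smul_smul, ← Circle.coe_mul, mul_inv_cancel, Circle.coe_one, one_smul] }
  norm_map' := fun w => by
    show ‖(z : ℂ) • w‖ = ‖w‖
    rw [norm_smul, Circle.norm_coe, one_mul]

/-- multiplication by a unit complex number on `E` -/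
noncomputable def rt (z : Circle) : E ≃ₗᵢ[ℝ] E := Φ.trans ((sm z).trans Φ.symm)

lemma Phi_rt (z : Circle) (x : E) : Φ (rt Φ z x) = (z : ℂ) • Φ x := by
  show Φ (Φ.symm ((z : ℂ) • Φ x)) = _
  rw [LinearIsometryEquiv.apply_symm_apply]

lemma hm_rt_right (z : Circle) (x y : E) : hm Φ x (rt Φ z y) = z * hm Φ x y := by
  rw [hm, Phi_rt, inner_smul_right]
  rfl

lemma hm_rt_left (z : Circle) (x y : E) : hm Φ (rt Φ z x) y = conj (z : ℂ) * hm Φ x y := by
  rw [hm, Phi_rt, inner_smul_left]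
  rfl

/-- multiplication by unit complex numbers, as a homomorphism -/
noncomputable def rtHom : Circle →* (E ≃ₗᵢ[ℝ] E) where
  toFun := rt Φ
  map_one' := by
    ext1 x
    apply Φ.injective
    rw [Phi_rt, Circle.coe_one, one_smul]
    rfl
  map_mul' a b := by
    ext1 x
    apply Φ.injective
    show Φ (rt Φ (a * b) x) = Φ (rt Φ a (rt Φ b x))
    rw [Phi_rt, Phi_rt, Phi_rt, Circle.coe_mul, mul_smul]

lemma rt_fixed {z w : Circle} {x : E} (hx : ‖x‖ = 1) (h : rt Φ z x = rt Φ w x) : z = w := by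
  have h1 : (z : ℂ) • Φ x = (w : ℂ) • Φ x := by rw [← Phi_rt, h, Phi_rt]
  have h2 : Φ x ≠ 0 := by
    intro h0
    have h3 := Φ.norm_map x
    rw [h0, norm_zero, hx] at h3
    exact zero_ne_one h3
  exact Circle.ext (smul_left_injective ℂ h2 h1)

/-- the cyclic group of rotations of order `p` -/
noncomputable def Gk (p : ℕ) : Subgroup (E ≃ₗᵢ[ℝ] E) := (Kp p).map (rtHom Φ)

lemma mem_Gk {p : ℕ} {g : E ≃ₗᵢ[ℝ] E} : g ∈ Gk Φ p ↔ ∃ z ∈ Kp p, rt Φ z = g := by
  rw [Gk, Subgroup.mem_map]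
  rfl

lemma Gk_finite (p : ℕ) (hp : 0 < p) : Finite (Gk Φ p) := by
  have h := (Kp_finite p hp).image (rtHom Φ)
  rw [← Subgroup.coe_map] at h
  exact h.to_subtype

lemma Gk_free (p : ℕ) (g : E ≃ₗᵢ[ℝ] E) (hg : g ∈ Gk Φ p) (x : E) (hx : ‖x‖ = 1)
    (h : g x = x) : g = 1 := by
  obtain ⟨z, hz, rfl⟩ := (mem_Gk Φ).1 hg
  have h1 : rt Φ z x = rt Φ 1 x := by
    rw [h]
    apply Φ.injective
    rw [Phi_rt, Circle.coe_one, one_smul]
  have := rt_fixed Φ hx h1
  rw [this]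
  exact (rtHom Φ).map_one

lemma hm_re_le {x y : E} (hx : ‖x‖ = 1) (hy : ‖y‖ = 1) : |(hm Φ x y).re| ≤ 1 := by
  rw [← inner_eq_hm]
  have := abs_real_inner_le_norm x y
  rw [hx, hy] at this
  linarith

/-- nearest representatives have Hermitian product in a thin sector -/
lemma sectorK {p : ℕ} (hp : 2 ≤ p) [Finite (Gk Φ p)] {x y : E} (hx : ‖x‖ = 1) (hy : ‖y‖ = 1)
    {g : E ≃ₗᵢ[ℝ] E} (hg : g ∈ Gk Φ p) (h : qdist (Gk Φ p) x y = angle x (g y)) :
    |(hm Φ x (g y)).im| * Real.cos (Real.pi / p) ≤ Real.sin (Real.pi / p) * (hm Φ x (g y)).re := by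
  have hgy : ‖g y‖ = 1 := by rw [g.norm_map, hy]
  have key : ∀ u ∈ Kp p, ((u : ℂ) * hm Φ x (g y)).re ≤ (hm Φ x (g y)).re := by
    intro u hu
    have h1 : qdist (Gk Φ p) x y ≤ angle x (rt Φ u (g y)) :=
      qdist_le_mul (Gk Φ p) x y ((mem_Gk Φ).2 ⟨u, hu, rfl⟩) hg
    rw [h] at h1
    have hru : ‖rt Φ u (g y)‖ = 1 := by rw [(rt Φ u).norm_map, hgy]
    rw [← hm_rt_right, ← inner_eq_hm, ← inner_eq_hm, inner_eq_cos hx hgy, inner_eq_cos hx hru]
    exact Real.cos_le_cos_of_nonneg_of_le_pi (angle_nonneg _ _) (angle_le_pi _ _) h1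
  set A := hm Φ x (g y) with hA
  have hp0 : (0 : ℝ) < p := by positivity
  have hzp := zp_mem p (by omega)
  have k1 := key _ hzp
  have k2 := key _ ((Kp p).inv_mem hzp)
  rw [Circle.coe_inv_eq_conj] at k2
  rw [Complex.mul_re, zp_re, zp_im] at k1
  rw [Complex.mul_re, Complex.conj_re, Complex.conj_im, zp_re, zp_im] at k2
  have hhalf : 2 * Real.pi / (p : ℝ) = 2 * (Real.pi / p) := by ring
  rw [hhalf, Real.cos_two_mul, Real.sin_two_mul] at k1 k2
  have hs : 0 < Real.sin (Real.pi / p) := by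
    apply Real.sin_pos_of_pos_of_lt_pi (by positivity)
    rw [div_lt_iff₀ hp0]
    have : (2 : ℝ) ≤ p := by exact_mod_cast hp
    nlinarith [Real.pi_pos]
  have hsc := Real.sin_sq_add_cos_sq (Real.pi / (p : ℝ))
  set s := Real.sin (Real.pi / (p : ℝ))
  set c := Real.cos (Real.pi / (p : ℝ))
  have hc2 : c ^ 2 = 1 - s ^ 2 := by linarith
  rw [hc2] at k1 k2
  have e1 : -(A.im * c) ≤ s * A.re := by
    have : s * (-(A.im * c)) ≤ s * (s * A.re) := by linarith
    exact le_of_mul_le_mul_left this hs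
  have e2 : A.im * c ≤ s * A.re := by
    have : s * (A.im * c) ≤ s * (s * A.re) := by linarith
    exact le_of_mul_le_mul_left this hs
  rcases abs_cases A.im with ⟨h3, -⟩ | ⟨h3, -⟩
  · rw [h3]; exact e2
  · rw [h3]; linarith

lemma sectorK' {p : ℕ} (hp : 3 ≤ p) [Finite (Gk Φ p)] {x y : E} (hx : ‖x‖ = 1) (hy : ‖y‖ = 1)
    {g : E ≃ₗᵢ[ℝ] E} (hg : g ∈ Gk Φ p) (h : qdist (Gk Φ p) x y = angle x (g y)) :
    |(hm Φ x (g y)).im| ≤ tau p ∧ 0 ≤ (hm Φ x (g y)).re := by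
  have h1 := sectorK Φ (by omega) hx hy hg h
  have hc := cos_pos_p hp
  have hs := sin_pos_p hp
  have hre := (abs_le.1 (hm_re_le Φ hx (by rw [g.norm_map, hy] : ‖g y‖ = 1))).2
  constructor
  · rw [tau, Real.tan_eq_sin_div_cos, le_div_iff₀ hc]
    nlinarith
  · have : 0 ≤ |(hm Φ x (g y)).im| * Real.cos (Real.pi / p) := by positivity
    have h2 : 0 ≤ Real.sin (Real.pi / p) * (hm Φ x (g y)).re := this.trans h1
    exact nonneg_of_mul_nonneg_right h2 hs

/-- the triple product of three points of a geodesically convex set is almost real -/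
lemma triple_boundK {p : ℕ} (hp : 3 ≤ p) [Finite (Gk Φ p)] (hτ : tau p ≤ 1)
    {Γ : Set (Quo (Gk Φ p))} (hΓ : GeodesicallyConvex Γ) {x y z : Metric.sphere (0 : E) 1}
    (hx : proj (Gk Φ p) x ∈ Γ) (hy : proj (Gk Φ p) y ∈ Γ) (hz : proj (Gk Φ p) z ∈ Γ) :
    |(hm Φ x y * hm Φ y z * hm Φ z x).im| ≤ 4 * tau p := by
  have nx := norm_sphere x
  have ny := norm_sphere y
  have nz := norm_sphere z
  obtain ⟨g₀, hg₀, h₀⟩ := qdist_attained (Gk Φ p) (y : E) (z : E)
  have sC := sectorK' Φ hp ny nz hg₀ h₀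
  have nz' : ‖g₀ (z : E)‖ = 1 := by rw [g₀.norm_map, nz]
  let z' : Metric.sphere (0 : E) 1 := ⟨g₀ z, by rw [mem_sphere_zero_iff_norm]; exact nz'⟩
  have pz : proj (Gk Φ p) z' = proj (Gk Φ p) z := (proj_eq_iff _ _ _).2 ⟨g₀, hg₀, rfl⟩
  have hz' : proj (Gk Φ p) z' ∈ Γ := by rw [pz]; exact hz
  have hq : qdist (Gk Φ p) (y : E) (z' : E) = angle (y : E) (z' : E) := by
    rw [← dist_proj, pz, dist_proj, h₀]
  have hpi : angle (y : E) (z' : E) ≠ Real.pi := by
    intro hcon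
    have h1 : inner ℝ (y : E) (z' : E) = -1 := by
      rw [inner_eq_cos ny nz', hcon, Real.cos_pi]
    rw [inner_eq_hm Φ] at h1
    have h2 : (0 : ℝ) ≤ (hm Φ (y : E) (z' : E)).re := sC.2
    linarith
  obtain ⟨g, hg, hA, hB⟩ := same_element (Gk Φ p) (Gk_free Φ p) hΓ hx hy hz' hq hpi
  have sA := sectorK' Φ hp nx ny hg hA
  have sB := sectorK' Φ hp nx nz' hg hB
  obtain ⟨u, hu, rfl⟩ := (mem_Gk Φ).1 hg₀
  obtain ⟨k, hk, rfl⟩ := (mem_Gk Φ).1 hg
  have rA := hm_re_le Φ nx (by rw [(rt Φ k).norm_map, ny] : ‖rt Φ k (y : E)‖ = 1)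
  have rB := hm_re_le Φ nx (by rw [(rt Φ k).norm_map, nz'] : ‖rt Φ k (z' : E)‖ = 1)
  have rC := hm_re_le Φ ny nz'
  have main := im_triple hτ rA rB rC sA.1 sB.1 sC.1
  have hzz : (z' : E) = rt Φ u z := rfl
  have e : hm Φ x (rt Φ k (y : E)) * hm Φ y (z' : E) * conj (hm Φ x (rt Φ k (z' : E)))
      = hm Φ x y * hm Φ y z * hm Φ z x := by
    rw [hzz, hm_rt_right, hm_rt_right, hm_rt_right, hm_rt_right, map_mul, map_mul,
      hm_conj]
    have h1 : (k : ℂ) * conj (k : ℂ) = 1 := by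
      rw [Complex.mul_conj, Circle.normSq_coe]; simp
    have h2 : (u : ℂ) * conj (u : ℂ) = 1 := by
      rw [Complex.mul_conj, Circle.normSq_coe]; simp
    calc (k : ℂ) * hm Φ x y * ((u : ℂ) * hm Φ y z) * (conj (k : ℂ) * (conj (u : ℂ) * hm Φ z x))
        = ((k : ℂ) * conj (k : ℂ)) * ((u : ℂ) * conj (u : ℂ)) *
          (hm Φ x y * hm Φ y z * hm Φ z x) := by ring
      _ = _ := by rw [h1, h2]; ring
  rw [e] at main
  exact main

/-- the invariant vector attached to a point -/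
noncomputable def bt (x z : E) : W := conj (hm Φ x z) • (Φ z - hm Φ x z • Φ x)

lemma bt_orth {x : E} (hx : ‖x‖ = 1) (z : E) : inner ℂ (Φ x) (bt Φ x z) = 0 := by
  rw [bt, inner_smul_right, inner_sub_right, inner_smul_right]
  have h : inner ℂ (Φ x) (Φ x) = (1 : ℂ) := hm_self Φ x hx
  rw [h, mul_one]
  have h2 : inner ℂ (Φ x) (Φ z) = hm Φ x z := rfl
  rw [h2, sub_self, mul_zero]

lemma triple_eqK {x : E} (hx : ‖x‖ = 1) (y z : E) :
    (hm Φ x y * hm Φ y z * hm Φ z x).im = (inner ℂ (bt Φ x y) (bt Φ x z)).im := by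
  have h1 : inner ℂ (bt Φ x y) (bt Φ x z) = hm Φ x y * hm Φ y z * hm Φ z x
      - ((Complex.normSq (hm Φ x y) * Complex.normSq (hm Φ x z) : ℝ) : ℂ) := by
    have hxx : inner ℂ (Φ x) (Φ x) = (1 : ℂ) := hm_self Φ x hx
    have e1 : inner ℂ (Φ x) (Φ z) = hm Φ x z := rfl
    have e2 : inner ℂ (Φ y) (Φ x) = hm Φ y x := rfl
    have e3 : inner ℂ (Φ y) (Φ z) = hm Φ y z := rfl
    rw [bt, bt, inner_smul_left, inner_smul_right, inner_sub_left, inner_sub_right,
      inner_sub_right, inner_smul_left, inner_smul_right, inner_smul_right, inner_smul_left,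
      hxx, e1, e2, e3, Complex.conj_conj, hm_conj, hm_conj]
    push_cast
    rw [← Complex.mul_conj, ← Complex.mul_conj, hm_conj, hm_conj]
    ring
  rw [h1, Complex.sub_im, Complex.ofReal_im, sub_zero]

end Pool.Agent.Y830.LS
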