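import Pool.Agent.Y830.LS.Meas
import Pool.Agent.H608R3.Lens.Final

/-!
Assembly: geodesically convex subsets of the lens spaces have small volume.
-/

set_option autoImplicit false

open MeasureTheory InnerProductGeometry Filter Topology ComplexConjugate

namespace Pool.Agent.Y830.LS

open Pool.Agent.H608R3.Lens

/-- the identification of `ℝ^(2k+4)` with `ℂ^(k+2)` -/
lemma exists_Phi (k : ℕ) : Nonempty (EuclideanSpace ℝ (Fin (2 * (k + 1) + 1 + 1)) ≃ₗᵢ[ℝ]
    EuclideanSpace ℂ (Fin (k + 2))) := by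
  have h : Module.finrank ℝ (EuclideanSpace ℂ (Fin (k + 2))) = 2 * (k + 1) + 1 + 1 := by
    rw [finrank_real_of_complex, finrank_euclideanSpace_fin]
    ring
  have b := (stdOrthonormalBasis ℝ (EuclideanSpace ℂ (Fin (k + 2)))).reindex (finCongr h)
  exact ⟨b.repr.symm⟩

variable {k d : ℕ} (Φ : EuclideanSpace ℝ (Fin d) ≃ₗᵢ[ℝ] EuclideanSpace ℂ (Fin (k + 2)))

/-- the preimage of the image of an invariant thin set is the set itself -/
lemma proj_preimage_thinK {p : ℕ} [Finite (Gk Φ p)]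
    (e : OrthonormalBasis (Fin (k + 2)) ℂ (EuclideanSpace ℂ (Fin (k + 2)))) (η : ℝ) :
    proj (Gk Φ p) ⁻¹' (proj (Gk Φ p) '' thinK Φ (chgK Φ e) η) = thinK Φ (chgK Φ e) η := by
  apply Set.Subset.antisymm
  · rintro z ⟨w, hw, hwz⟩
    obtain ⟨g, hg, hgw⟩ := (proj_eq_iff _ _ _).1 hwz
    obtain ⟨u, -, rfl⟩ := (mem_Gk Φ).1 hg
    have h1 : |FK Φ (chgK Φ e (w : EuclideanSpace ℝ (Fin d)))| ≤ η := hw
    rw [hgw, FK_chgK_rt] at h1
    exact h1
  · exact Set.subset_preimage_image _ _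

/-- the volume of the quotient -/
noncomputable def qvolK (p : ℕ) [Finite (Gk Φ p)] [MeasurableSpace (Quo (Gk Φ p))] :
    Measure (Quo (Gk Φ p)) :=
  (Nat.card (Gk Φ p) : ENNReal)⁻¹ •
    Measure.map (proj (Gk Φ p)) (volume : Measure (EuclideanSpace ℝ (Fin d))).toSphere

lemma connected_sphereK (hd : 1 < d) :
    ConnectedSpace (Metric.sphere (0 : EuclideanSpace ℝ (Fin d)) 1) := by
  rw [← isConnected_iff_connectedSpace]
  apply isConnected_sphere _ _ zero_le_one
  rw [← Module.finrank_eq_rank, finrank_euclideanSpace_fin]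
  exact_mod_cast hd

theorem mainK (k : ℕ) (c : ENNReal) (hc : 0 < c) :
    ∃ (M : Type) (_ : MetricSpace M) (_ : MeasurableSpace M) (_ : BorelSpace M)
      (vol : Measure M), CompactSpace M ∧ ConnectedSpace M ∧
      IsSphericalSpaceForm (2 * (k + 1) + 1) M vol ∧
      0 < vol Set.univ ∧ vol Set.univ < ⊤ ∧
      ∀ Γ : Set M, GeodesicallyConvex Γ → vol Γ < c * vol Set.univ := by
  obtain ⟨Φ⟩ := exists_Phi k
  -- the total surface measure
  have hσ0 : (volume : Measure (EuclideanSpace ℝ (Fin (2 * (k + 1) + 1 + 1)))).toSphere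
      Set.univ ≠ 0 := by
    rw [Measure.measure_univ_ne_zero]
    exact Measure.toSphere_ne_zero _
  have hσ1 : (volume : Measure (EuclideanSpace ℝ (Fin (2 * (k + 1) + 1 + 1)))).toSphere
      Set.univ ≠ ⊤ := measure_ne_top _ _
  -- choice of the thickness
  obtain ⟨η, hη, hsmall⟩ : ∃ η : ℝ, 0 < η ∧
      ((2 * (k + 1) + 1 + 1 : ℕ) : ENNReal) * volume (coneK Φ η) <
        c * (volume : Measure (EuclideanSpace ℝ (Fin (2 * (k + 1) + 1 + 1)))).toSphere
          Set.univ := by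
    have h1 : Tendsto (fun n : ℕ => ((2 * (k + 1) + 1 + 1 : ℕ) : ENNReal) *
        volume (coneK Φ ((1 : ℝ) / (n + 1)))) atTop
        (𝓝 (((2 * (k + 1) + 1 + 1 : ℕ) : ENNReal) * 0)) :=
      ENNReal.Tendsto.const_mul (coneK_tendsto Φ) (Or.inr (ENNReal.natCast_ne_top _))
    rw [mul_zero] at h1
    have hpos : 0 < c * (volume : Measure (EuclideanSpace ℝ (Fin (2 * (k + 1) + 1 + 1)))).toSphere
        Set.univ := ENNReal.mul_pos hc.ne' hσ0
    obtain ⟨n, hn⟩ := (h1.eventually (gt_mem_nhds hpos)).exists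
    exact ⟨(1 : ℝ) / (n + 1), by positivity, hn⟩
  obtain ⟨p, hp, hτ, hpη⟩ := exists_p hη
  have : Finite (Gk Φ p) := Gk_finite Φ p (by omega)
  let _ : MeasurableSpace (Quo (Gk Φ p)) := borel _
  have : BorelSpace (Quo (Gk Φ p)) := ⟨rfl⟩
  have := connected_sphereK (d := 2 * (k + 1) + 1 + 1) (by omega)
  have hcard0 : (Nat.card (Gk Φ p) : ENNReal)⁻¹ ≠ 0 := by
    apply ENNReal.inv_ne_zero.2
    exact ENNReal.natCast_ne_top _
  have hcard1 : (Nat.card (Gk Φ p) : ENNReal)⁻¹ ≠ ⊤ := by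
    apply ENNReal.inv_ne_top.2
    have := Nat.card_pos (α := Gk Φ p)
    exact_mod_cast this.ne'
  have hmeas : Measurable (proj (Gk Φ p)) := (proj_continuous (Gk Φ p)).measurable
  have huniv : qvolK Φ p Set.univ = (Nat.card (Gk Φ p) : ENNReal)⁻¹ *
      (volume : Measure (EuclideanSpace ℝ (Fin (2 * (k + 1) + 1 + 1)))).toSphere Set.univ := by
    rw [qvolK, Measure.smul_apply, Measure.map_apply hmeas MeasurableSet.univ, Set.preimage_univ,
      smul_eq_mul]
  refine ⟨Quo (Gk Φ p), inferInstance, inferInstance, inferInstance, qvolK Φ p,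
    ?_, ?_, ?_, ?_, ?_, ?_⟩
  · refine ⟨?_⟩
    rw [← (proj_surjective (Gk Φ p)).range_eq]
    exact isCompact_range (proj_continuous (Gk Φ p))
  · exact (proj_surjective (Gk Φ p)).connectedSpace (proj_continuous (Gk Φ p))
  · refine ⟨Gk Φ p, proj (Gk Φ p), inferInstance, Gk_free Φ p, proj_surjective (Gk Φ p), ?_, rfl⟩
    intro x y
    rw [dist_proj]
    exact qdist_isLeast (Gk Φ p) x y
  · rw [huniv]
    exact ENNReal.mul_pos hcard0 hσ0
  · rw [huniv]
    exact ENNReal.mul_lt_top (lt_top_iff_ne_top.2 hcard1) (lt_top_iff_ne_top.2 hσ1)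
  · intro Γ hΓ
    rcases Set.eq_empty_or_nonempty Γ with rfl | hne
    · rw [measure_empty, huniv]
      exact ENNReal.mul_pos hc.ne' (mul_ne_zero hcard0 hσ0)
    · obtain ⟨e, he⟩ := convex_thinK Φ hp hτ hΓ hne
      have hsub : Γ ⊆ proj (Gk Φ p) '' thinK Φ (chgK Φ e) η := by
        intro q hq
        obtain ⟨z, rfl⟩ := proj_surjective (Gk Φ p) q
        exact ⟨z, (he z hq).trans hpη, rfl⟩
      have hAm : MeasurableSet (proj (Gk Φ p) '' thinK Φ (chgK Φ e) η) := by
        apply IsClosed.measurableSet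
        apply IsCompact.isClosed
        exact (thinK_closed Φ _ _).isCompact.image (proj_continuous (Gk Φ p))
      calc qvolK Φ p Γ ≤ qvolK Φ p (proj (Gk Φ p) '' thinK Φ (chgK Φ e) η) := measure_mono hsub
        _ = (Nat.card (Gk Φ p) : ENNReal)⁻¹ *
            (((2 * (k + 1) + 1 + 1 : ℕ) : ENNReal) * volume (coneK Φ η)) := by
            rw [qvolK, Measure.smul_apply, Measure.map_apply hmeas hAm, proj_preimage_thinK,
              thinK_measure, smul_eq_mul]
        _ < (Nat.card (Gk Φ p) : ENNReal)⁻¹ *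
            (c * (volume : Measure (EuclideanSpace ℝ (Fin (2 * (k + 1) + 1 + 1)))).toSphere
              Set.univ) :=
            (ENNReal.mul_lt_mul_iff_right hcard0 hcard1).2 hsmall
        _ = c * qvolK Φ p Set.univ := by
            rw [huniv]
            ring

end Pool.Agent.Y830.LS
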