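import Pool.Agent.Y830.LS.Thin

/-!
The surface measure of the thin sets tends to zero.
-/

set_option autoImplicit false

open MeasureTheory InnerProductGeometry Filter Topology ComplexConjugate Pointwise

namespace Pool.Agent.Y830.LS

open Pool.Agent.H608R3.Lens

variable {k d : ℕ} (Φ : EuclideanSpace ℝ (Fin d) ≃ₗᵢ[ℝ] EuclideanSpace ℂ (Fin (k + 2)))

lemma FK_continuous : Continuous (FK Φ) := by
  unfold FK
  have h : ∀ i : Fin (k + 2), Continuous fun z : EuclideanSpace ℝ (Fin d) => (Φ z) i := by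
    intro i
    have h1 : Continuous fun w : EuclideanSpace ℂ (Fin (k + 2)) => w i := by fun_prop
    exact h1.comp Φ.continuous
  exact Complex.continuous_im.comp ((Complex.continuous_conj.comp (h 0)).mul (h 1))

lemma FK_smul (r : ℝ) (z : EuclideanSpace ℝ (Fin d)) : FK Φ (r • z) = r ^ 2 * FK Φ z := by
  have h : ∀ i : Fin (k + 2), (Φ (r • z)) i = (r : ℂ) * (Φ z) i := by
    intro i
    rw [map_smul]
    show r • (Φ z) i = _
    rw [Complex.real_smul]
  rw [FK, FK, h, h, map_mul, Complex.conj_ofReal]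
  have e : (r : ℂ) * conj ((Φ z) 0) * ((r : ℂ) * (Φ z) 1)
      = ((r ^ 2 : ℝ) : ℂ) * (conj ((Φ z) 0) * (Φ z) 1) := by
    push_cast
    ring
  rw [e, Complex.im_ofReal_mul]

/-- the cone over a thin set -/
def coneK (η : ℝ) : Set (EuclideanSpace ℝ (Fin d)) :=
  {v | 0 < ‖v‖ ∧ ‖v‖ < 1 ∧ |FK Φ v| ≤ η * ‖v‖ ^ 2}

lemma coneK_measurable (η : ℝ) : MeasurableSet (coneK Φ η) := by
  have h1 : MeasurableSet {v : EuclideanSpace ℝ (Fin d) | 0 < ‖v‖} :=
    measurableSet_lt measurable_const measurable_norm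
  have h2 : MeasurableSet {v : EuclideanSpace ℝ (Fin d) | ‖v‖ < 1} :=
    measurableSet_lt measurable_norm measurable_const
  have h3 : MeasurableSet {v : EuclideanSpace ℝ (Fin d) | |FK Φ v| ≤ η * ‖v‖ ^ 2} := by
    apply measurableSet_le
    · exact ((FK_continuous Φ).abs).measurable
    · fun_prop
  exact h1.inter (h2.inter h3)

lemma coneK_finite (η : ℝ) : volume (coneK Φ η) < ⊤ := by
  refine lt_of_le_of_lt (measure_mono ?_)
    (measure_ball_lt_top (x := (0 : EuclideanSpace ℝ (Fin d))) (r := 1))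
  rintro v ⟨-, h, -⟩
  rw [mem_ball_zero_iff]
  exact h

/-- the real part of the first coordinate -/
noncomputable def LK : EuclideanSpace ℝ (Fin d) →ₗ[ℝ] ℝ where
  toFun v := ((Φ v) 0).re
  map_add' a b := by
    rw [map_add]
    rfl
  map_smul' r a := by
    rw [map_smul]
    show (r • (Φ a) 0).re = r * _
    rw [Complex.real_smul, Complex.re_ofReal_mul]

/-- the direction of the translations -/
noncomputable def wK : EuclideanSpace ℝ (Fin d) :=
  Φ.symm (EuclideanSpace.single 1 Complex.I)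

lemma wK_norm : ‖wK Φ‖ = 1 := by
  rw [wK, LinearIsometryEquiv.norm_map, PiLp.norm_single, Complex.norm_I]

lemma zero_ne_one_fin : (0 : Fin (k + 2)) ≠ 1 := by
  intro h
  have := congrArg Fin.val h
  simp at this

lemma FK_translate (v : EuclideanSpace ℝ (Fin d)) (t : ℝ) :
    FK Φ (v + t • wK Φ) = FK Φ v + t * LK Φ v := by
  have h : Φ (v + t • wK Φ) = Φ v + t • EuclideanSpace.single 1 Complex.I := by
    rw [map_add, map_smul, wK, LinearIsometryEquiv.apply_symm_apply]
  have h0 : (Φ (v + t • wK Φ)) 0 = (Φ v) 0 := by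
    rw [h]
    show (Φ v) 0 + t • (EuclideanSpace.single (1 : Fin (k + 2)) Complex.I :
      EuclideanSpace ℂ (Fin (k + 2))) 0 = _
    rw [PiLp.single_eq_of_ne 2 zero_ne_one_fin, smul_zero, add_zero]
  have h1 : (Φ (v + t • wK Φ)) 1 = (Φ v) 1 + (t : ℂ) * Complex.I := by
    rw [h]
    show (Φ v) 1 + t • (EuclideanSpace.single (1 : Fin (k + 2)) Complex.I :
      EuclideanSpace ℂ (Fin (k + 2))) 1 = _
    rw [PiLp.single_eq_same, Complex.real_smul]
  rw [FK, h0, h1, FK]
  show _ = _ + t * ((Φ v) 0).re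
  simp only [Complex.mul_im, Complex.conj_re, Complex.conj_im, Complex.add_re, Complex.add_im,
    Complex.mul_re, Complex.I_re, Complex.I_im, Complex.ofReal_re, Complex.ofReal_im]
  ring

lemma FK_zero_null : volume {v : EuclideanSpace ℝ (Fin d) | FK Φ v = 0} = 0 := by
  have hsub : {v : EuclideanSpace ℝ (Fin d) | FK Φ v = 0} ⊆
      {v : EuclideanSpace ℝ (Fin d) | FK Φ v = 0 ∧ LK Φ v ≠ 0} ∪
      ((LinearMap.ker (LK Φ) : Submodule ℝ (EuclideanSpace ℝ (Fin d))) :
        Set (EuclideanSpace ℝ (Fin d))) := by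
    intro v hv
    by_cases h : LK Φ v = 0
    · right
      exact h
    · left
      exact ⟨hv, h⟩
  refine measure_mono_null hsub (measure_union_null ?_ ?_)
  · refine Measure.addHaar_eq_zero_of_disjoint_translates volume
      (fun n : ℕ => ((1 : ℝ) / (n + 1)) • wK Φ) ?_ ?_ ?_
    · rw [isBounded_iff_forall_norm_le]
      refine ⟨1, ?_⟩
      rintro _ ⟨n, rfl⟩
      simp only
      rw [norm_smul, wK_norm, mul_one, Real.norm_of_nonneg (by positivity)]
      rw [div_le_one (by positivity)]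
      have : (0 : ℝ) ≤ n := Nat.cast_nonneg n
      linarith
    · intro m n hmn
      rw [Function.onFun, Set.disjoint_left]
      rintro w hw hw'
      rw [Set.singleton_add, Set.mem_image] at hw hw'
      obtain ⟨a, ⟨ha1, ha2⟩, ha⟩ := hw
      obtain ⟨b, ⟨hb1, hb2⟩, hb⟩ := hw'
      have hba : b = a + ((1 : ℝ) / (m + 1) - 1 / (n + 1)) • wK Φ := by
        have h1 := ha.trans hb.symm
        rw [sub_smul]
        have h2 : b = ((1 : ℝ) / (m + 1)) • wK Φ + a - ((1 : ℝ) / (n + 1)) • wK Φ := by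
          rw [h1]; abel
        rw [h2]; abel
      rw [hba, FK_translate, ha1, zero_add] at hb1
      rcases mul_eq_zero.1 hb1 with h6 | h6
      · apply hmn
        have h7 : (1 : ℝ) / (m + 1) = 1 / (n + 1) := by linarith
        rw [one_div, one_div] at h7
        have h8 := inv_injective h7
        have h9 : (m : ℝ) = n := by linarith
        exact_mod_cast h9
      · exact ha2 h6
    · have h1 : MeasurableSet {v : EuclideanSpace ℝ (Fin d) | FK Φ v = 0} :=
        (isClosed_singleton.preimage (FK_continuous Φ)).measurableSet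
      have h2 : MeasurableSet {v : EuclideanSpace ℝ (Fin d) | LK Φ v ≠ 0} := by
        have : Continuous (LK Φ) := LinearMap.continuous_of_finiteDimensional _
        exact this.measurable (measurableSet_singleton 0).compl
      exact h1.inter h2
  · apply Measure.addHaar_submodule
    intro h
    have h1 : Φ.symm (EuclideanSpace.single 0 1) ∈
        (⊤ : Submodule ℝ (EuclideanSpace ℝ (Fin d))) := trivial
    rw [← h] at h1
    have h2 : ((Φ (Φ.symm (EuclideanSpace.single 0 1))) 0).re = 0 := h1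
    rw [LinearIsometryEquiv.apply_symm_apply, PiLp.single_eq_same] at h2
    simp at h2

lemma coneK_tendsto :
    Tendsto (fun n : ℕ => volume (coneK Φ ((1 : ℝ) / (n + 1)))) atTop (𝓝 0) := by
  have h := tendsto_measure_iInter_atTop (μ := (volume : Measure (EuclideanSpace ℝ (Fin d))))
    (s := fun n : ℕ => coneK Φ ((1 : ℝ) / (n + 1)))
    (fun n => (coneK_measurable Φ _).nullMeasurableSet) (by
      intro m n hmn v hv
      refine ⟨hv.1, hv.2.1, hv.2.2.trans ?_⟩
      apply mul_le_mul_of_nonneg_right _ (sq_nonneg _)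
      apply one_div_le_one_div_of_le (by positivity)
      have : (m : ℝ) ≤ n := by exact_mod_cast hmn
      linarith) ⟨0, (coneK_finite Φ _).ne⟩
  have h0 : volume (⋂ n : ℕ, coneK Φ ((1 : ℝ) / (n + 1))) = 0 := by
    refine measure_mono_null ?_ (FK_zero_null Φ)
    intro v hv
    rw [Set.mem_iInter] at hv
    have h1 : ∀ n : ℕ, |FK Φ v| ≤ (1 : ℝ) / (n + 1) * ‖v‖ ^ 2 := fun n => (hv n).2.2
    have h2 : Tendsto (fun n : ℕ => (1 : ℝ) / (n + 1) * ‖v‖ ^ 2) atTop (𝓝 (0 * ‖v‖ ^ 2)) :=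
      tendsto_one_div_add_atTop_nhds_zero_nat.mul_const _
    rw [zero_mul] at h2
    have h3 := ge_of_tendsto' h2 h1
    have h4 : |FK Φ v| = 0 := le_antisymm h3 (abs_nonneg _)
    exact abs_eq_zero.1 h4
  rw [h0] at h
  exact h

/-- the thin subset of the sphere -/
def thinK (U : EuclideanSpace ℝ (Fin d) ≃ₗᵢ[ℝ] EuclideanSpace ℝ (Fin d)) (η : ℝ) :
    Set (Metric.sphere (0 : EuclideanSpace ℝ (Fin d)) 1) := {z | |FK Φ (U z)| ≤ η}

lemma thinK_closed (U : EuclideanSpace ℝ (Fin d) ≃ₗᵢ[ℝ] EuclideanSpace ℝ (Fin d)) (η : ℝ) :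
    IsClosed (thinK Φ U η) := by
  unfold thinK
  have : Continuous fun z : Metric.sphere (0 : EuclideanSpace ℝ (Fin d)) 1 =>
      |FK Φ (U (z : EuclideanSpace ℝ (Fin d)))| :=
    ((FK_continuous Φ).comp (U.continuous.comp continuous_subtype_val)).abs
  exact isClosed_le this continuous_const

lemma thinK_cone (U : EuclideanSpace ℝ (Fin d) ≃ₗᵢ[ℝ] EuclideanSpace ℝ (Fin d)) (η : ℝ) :
    Set.Ioo (0 : ℝ) 1 • ((fun z : Metric.sphere (0 : EuclideanSpace ℝ (Fin d)) 1 =>
      (z : EuclideanSpace ℝ (Fin d))) '' thinK Φ U η) = U ⁻¹' coneK Φ η := by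
  ext v
  rw [Set.mem_smul]
  constructor
  · rintro ⟨r, hr, w, ⟨z, hz, rfl⟩, rfl⟩
    have nz := norm_sphere z
    simp only [Set.mem_preimage, coneK, Set.mem_ofPred_eq]
    rw [map_smul, FK_smul, norm_smul, U.norm_map, nz, mul_one, Real.norm_of_nonneg hr.1.le]
    refine ⟨hr.1, hr.2, ?_⟩
    rw [abs_mul, abs_of_nonneg (sq_nonneg r), mul_comm η]
    exact mul_le_mul_of_nonneg_left hz (sq_nonneg _)
  · rintro ⟨h0, h1, h2⟩
    rw [U.norm_map] at h0 h1 h2
    refine ⟨‖v‖, ⟨h0, h1⟩, ‖v‖⁻¹ • v, ⟨⟨‖v‖⁻¹ • v, ?_⟩, ?_, rfl⟩, ?_⟩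
    · rw [mem_sphere_zero_iff_norm, norm_smul, norm_inv, norm_norm, inv_mul_cancel₀ h0.ne']
    · show |FK Φ (U (‖v‖⁻¹ • v))| ≤ η
      rw [map_smul, FK_smul, abs_mul, abs_of_nonneg (sq_nonneg _), inv_pow,
        inv_mul_le_iff₀ (by positivity)]
      linarith
    · rw [smul_smul, mul_inv_cancel₀ h0.ne', one_smul]

lemma thinK_measure (U : EuclideanSpace ℝ (Fin d) ≃ₗᵢ[ℝ] EuclideanSpace ℝ (Fin d)) (η : ℝ) :
    (volume : Measure (EuclideanSpace ℝ (Fin d))).toSphere (thinK Φ U η)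
      = d * volume (coneK Φ η) := by
  rw [Measure.toSphere_apply' _ (thinK_closed Φ U η).measurableSet]
  have h := thinK_cone Φ U η
  have h1 : volume (Set.Ioo (0 : ℝ) 1 • ((↑) '' thinK Φ U η : Set (EuclideanSpace ℝ (Fin d))))
      = volume (coneK Φ η) := by
    rw [h]
    exact U.measurePreserving.measure_preimage (coneK_measurable Φ η).nullMeasurableSet
  rw [h1, finrank_euclideanSpace_fin]

end Pool.Agent.Y830.LS
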