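import Pool.Agent.H608R3.Lens.Defs

/-!
The first projection of a geodesically convex subset of a Riemannian product is geodesically
convex.
-/

set_option autoImplicit false

open MeasureTheory

namespace Pool.Agent.Y830.LS

open Pool.Agent.H608R3.Lens

lemma cs2 {x1 x2 y1 y2 X Y : ℝ} (hX : 0 ≤ X) (hY : 0 ≤ Y) (hx : X ^ 2 = x1 ^ 2 + x2 ^ 2)
    (hy : Y ^ 2 = y1 ^ 2 + y2 ^ 2) : x1 * y1 + x2 * y2 ≤ X * Y := by
  have h : (x1 * y1 + x2 * y2) ^ 2 ≤ (X * Y) ^ 2 := by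
    rw [mul_pow, hx, hy]
    nlinarith [sq_nonneg (x1 * y2 - x2 * y1)]
  exact (le_abs_self _).trans (abs_le_of_sq_le_sq h (mul_nonneg hX hY))

/-- equality in the triangle inequality of the plane -/
lemma split2 {D1 D2 D a1 a2 b1 b2 c1 c2 s t : ℝ} (hD1 : 0 ≤ D1) (hD2 : 0 ≤ D2) (hD0 : 0 < D)
    (hD : D ^ 2 = D1 ^ 2 + D2 ^ 2) (hs : 0 ≤ s) (hst : s ≤ t) (ht : t ≤ D)
    (ha : s ^ 2 = a1 ^ 2 + a2 ^ 2) (hb : (t - s) ^ 2 = b1 ^ 2 + b2 ^ 2)
    (hc : (D - t) ^ 2 = c1 ^ 2 + c2 ^ 2) (h1 : D1 ≤ a1 + b1 + c1) (h2 : D2 ≤ a2 + b2 + c2) :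
    b1 = (t - s) * (D1 / D) ∧ b2 = (t - s) * (D2 / D) := by
  have e1 := cs2 hD0.le hs hD ha
  have e3 := cs2 hD0.le (sub_nonneg.2 ht) hD hc
  have k1 : D1 * D1 ≤ D1 * (a1 + b1 + c1) := mul_le_mul_of_nonneg_left h1 hD1
  have k2 : D2 * D2 ≤ D2 * (a2 + b2 + c2) := mul_le_mul_of_nonneg_left h2 hD2
  have key : D * (t - s) ≤ D1 * b1 + D2 * b2 := by nlinarith
  obtain ⟨r, hr⟩ : ∃ r, r = (t - s) / D := ⟨_, rfl⟩
  have hr0 : 0 ≤ r := by rw [hr]; exact div_nonneg (sub_nonneg.2 hst) hD0.le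
  have hrD : t - s = r * D := by rw [hr]; field_simp
  have e : (b1 - D1 * r) ^ 2 + (b2 - D2 * r) ^ 2 ≤ 0 := by
    have e4 : (b1 - D1 * r) ^ 2 + (b2 - D2 * r) ^ 2
        = (b1 ^ 2 + b2 ^ 2) - 2 * r * (D1 * b1 + D2 * b2) + r ^ 2 * (D1 ^ 2 + D2 ^ 2) := by ring
    rw [e4, ← hb, ← hD, hrD]
    rw [hrD] at key
    have := mul_le_mul_of_nonneg_left key hr0
    nlinarith
  have z1 : b1 - D1 * r = 0 := by
    have := sq_nonneg (b2 - D2 * r)
    have h3 : (b1 - D1 * r) ^ 2 ≤ 0 := by linarith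
    exact pow_eq_zero_iff (two_ne_zero) |>.1 (le_antisymm h3 (sq_nonneg _))
  have z2 : b2 - D2 * r = 0 := by
    have := sq_nonneg (b1 - D1 * r)
    have h3 : (b2 - D2 * r) ^ 2 ≤ 0 := by linarith
    exact pow_eq_zero_iff (two_ne_zero) |>.1 (le_antisymm h3 (sq_nonneg _))
  constructor
  · rw [sub_eq_zero.1 z1, hr]; ring
  · rw [sub_eq_zero.1 z2, hr]; ring

variable {M M₁ M₂ : Type} [MetricSpace M] [MetricSpace M₁] [MetricSpace M₂]

/-- both components of a minimizing geodesic have constant speed -/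
lemma geodesic_comp (e : M ≃ M₁ × M₂)
    (hd : ∀ x y, dist x y ^ 2 = dist (e x).1 (e y).1 ^ 2 + dist (e x).2 (e y).2 ^ 2)
    {x y : M} {γ : ℝ → M} (hγ : IsMinimizingGeodesic x y γ) (hD0 : 0 < dist x y) :
    ∀ s ∈ Set.Icc 0 (dist x y), ∀ t ∈ Set.Icc 0 (dist x y),
      dist (e (γ s)).1 (e (γ t)).1 = |s - t| * (dist (e x).1 (e y).1 / dist x y) ∧
      dist (e (γ s)).2 (e (γ t)).2 = |s - t| * (dist (e x).2 (e y).2 / dist x y) := by
  obtain ⟨h0, h1, hg⟩ := hγ
  have main : ∀ s t, 0 ≤ s → s ≤ t → t ≤ dist x y →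
      dist (e (γ s)).1 (e (γ t)).1 = (t - s) * (dist (e x).1 (e y).1 / dist x y) ∧
      dist (e (γ s)).2 (e (γ t)).2 = (t - s) * (dist (e x).2 (e y).2 / dist x y) := by
    intro s t hs hst ht
    have m0 : (0 : ℝ) ∈ Set.Icc 0 (dist x y) := ⟨le_refl _, hD0.le⟩
    have mD : dist x y ∈ Set.Icc 0 (dist x y) := ⟨hD0.le, le_refl _⟩
    have ms : s ∈ Set.Icc 0 (dist x y) := ⟨hs, hst.trans ht⟩
    have mt : t ∈ Set.Icc 0 (dist x y) := ⟨hs.trans hst, ht⟩
    have ha := hd (γ 0) (γ s)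
    have hb := hd (γ s) (γ t)
    have hc := hd (γ t) (γ (dist x y))
    rw [hg 0 m0 s ms, sq_abs, h0] at ha
    rw [hg s ms t mt, sq_abs] at hb
    rw [hg t mt _ mD, sq_abs, h1] at hc
    refine split2 dist_nonneg dist_nonneg hD0 (hd x y) hs hst ht
      (a1 := dist (e x).1 (e (γ s)).1) (a2 := dist (e x).2 (e (γ s)).2)
      (c1 := dist (e (γ t)).1 (e y).1) (c2 := dist (e (γ t)).2 (e y).2) ?_ ?_ ?_ ?_ ?_
    · rw [← ha]; ring
    · rw [← hb]; ring
    · rw [← hc]; ring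
    · exact dist_triangle4 _ _ _ _
    · exact dist_triangle4 _ _ _ _
  intro s hs t ht
  rcases le_total s t with hst | hst
  · rw [abs_sub_comm, abs_of_nonneg (sub_nonneg.2 hst)]
    exact main s t hs.1 hst ht.2
  · rw [abs_of_nonneg (sub_nonneg.2 hst), dist_comm (e (γ s)).1, dist_comm (e (γ s)).2]
    exact main t s ht.1 hst hs.2

/-- the first projection of a geodesically convex set is geodesically convex -/
lemma convex_fst (e : M ≃ M₁ × M₂)
    (hd : ∀ x y, dist x y ^ 2 = dist (e x).1 (e y).1 ^ 2 + dist (e x).2 (e y).2 ^ 2)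
    {Γ : Set M} (hΓ : GeodesicallyConvex Γ) :
    GeodesicallyConvex ((fun x => (e x).1) '' Γ) := by
  rintro _ ⟨x, hx, rfl⟩ _ ⟨y, hy, rfl⟩
  obtain ⟨γ, hγ, huniq, hin⟩ := hΓ x hx y hy
  show ∃ γ' : ℝ → M₁, IsMinimizingGeodesic (e x).1 (e y).1 γ' ∧
    (∀ γ'' : ℝ → M₁, IsMinimizingGeodesic (e x).1 (e y).1 γ'' →
      Set.EqOn γ'' γ' (Set.Icc 0 (dist (e x).1 (e y).1))) ∧
    ∀ s ∈ Set.Icc 0 (dist (e x).1 (e y).1), γ' s ∈ (fun x => (e x).1) '' Γ
  by_cases hD1 : dist (e x).1 (e y).1 = 0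
  · refine ⟨fun _ => (e x).1, ⟨rfl, dist_eq_zero.1 hD1, ?_⟩, ?_, ?_⟩
    · intro s hs t ht
      rw [hD1] at hs ht
      have e1 : s = 0 := le_antisymm hs.2 hs.1
      have e2 : t = 0 := le_antisymm ht.2 ht.1
      rw [e1, e2, dist_self, sub_zero, abs_zero]
    · intro γ' hγ' s hs
      rw [hD1] at hs
      have e1 : s = 0 := le_antisymm hs.2 hs.1
      rw [e1]
      exact hγ'.1
    · intro s _
      exact ⟨x, hx, rfl⟩
  · have hp1 : 0 < dist (e x).1 (e y).1 := lt_of_le_of_ne dist_nonneg (Ne.symm hD1)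
    have hD := hd x y
    have hp : 0 < dist x y := by
      rcases (dist_nonneg (x := x) (y := y)).lt_or_eq with h | h
      · exact h
      · exfalso
        rw [← h] at hD
        nlinarith [sq_nonneg (dist (e x).2 (e y).2)]
    have hcomp := geodesic_comp e hd hγ hp
    obtain ⟨h0, h1, hg⟩ := hγ
    have hmem : ∀ s ∈ Set.Icc 0 (dist (e x).1 (e y).1),
        s * (dist x y / dist (e x).1 (e y).1) ∈ Set.Icc 0 (dist x y) := by
      intro s hs
      constructor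
      · exact mul_nonneg hs.1 (div_nonneg hp.le hp1.le)
      · calc s * (dist x y / dist (e x).1 (e y).1)
            ≤ dist (e x).1 (e y).1 * (dist x y / dist (e x).1 (e y).1) :=
              mul_le_mul_of_nonneg_right hs.2 (div_nonneg hp.le hp1.le)
          _ = dist x y := by field_simp
    have hmem' : ∀ s ∈ Set.Icc 0 (dist x y),
        s * (dist (e x).1 (e y).1 / dist x y) ∈ Set.Icc 0 (dist (e x).1 (e y).1) := by
      intro s hs
      constructor
      · exact mul_nonneg hs.1 (div_nonneg hp1.le hp.le)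
      · calc s * (dist (e x).1 (e y).1 / dist x y)
            ≤ dist x y * (dist (e x).1 (e y).1 / dist x y) :=
              mul_le_mul_of_nonneg_right hs.2 (div_nonneg hp1.le hp.le)
          _ = dist (e x).1 (e y).1 := by field_simp
    refine ⟨fun s => (e (γ (s * (dist x y / dist (e x).1 (e y).1)))).1, ⟨?_, ?_, ?_⟩, ?_, ?_⟩
    · show (e (γ (0 * _))).1 = _
      rw [zero_mul, h0]
    · show (e (γ (dist (e x).1 (e y).1 * (dist x y / dist (e x).1 (e y).1)))).1 = _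
      rw [mul_div_cancel₀ _ hD1, h1]
    · intro s hs t ht
      rw [(hcomp _ (hmem s hs) _ (hmem t ht)).1, ← sub_mul, abs_mul,
        abs_of_pos (div_pos hp hp1)]
      field_simp
    · intro γ' hγ' σ hσ
      obtain ⟨g0, g1, gg⟩ := hγ'
      have hδ : IsMinimizingGeodesic x y
          (fun s => e.symm (γ' (s * (dist (e x).1 (e y).1 / dist x y)), (e (γ s)).2)) := by
        refine ⟨?_, ?_, ?_⟩
        · show e.symm (γ' (0 * _), (e (γ 0)).2) = x
          rw [zero_mul, g0, h0, Prod.mk.eta, Equiv.symm_apply_apply]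
        · show e.symm (γ' (dist x y * _), (e (γ (dist x y))).2) = y
          rw [mul_div_cancel₀ _ hp.ne', g1, h1, Prod.mk.eta, Equiv.symm_apply_apply]
        · intro s hs t ht
          have hsq : dist (e.symm (γ' (s * (dist (e x).1 (e y).1 / dist x y)), (e (γ s)).2))
              (e.symm (γ' (t * (dist (e x).1 (e y).1 / dist x y)), (e (γ t)).2)) ^ 2
              = |s - t| ^ 2 := by
            rw [hd, Equiv.apply_symm_apply, Equiv.apply_symm_apply]
            simp only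
            rw [gg _ (hmem' s hs) _ (hmem' t ht), (hcomp s hs t ht).2, ← sub_mul, abs_mul,
              abs_of_nonneg (div_nonneg hp1.le hp.le), mul_pow, mul_pow, ← mul_add, div_pow,
              div_pow, ← add_div, ← hD, div_self (pow_ne_zero 2 hp.ne'), mul_one]
          exact (sq_eq_sq₀ dist_nonneg (abs_nonneg _)).1 hsq
      have h := huniq _ hδ (hmem σ hσ)
      have h' := congrArg (fun z => (e z).1) h
      simp only [Equiv.apply_symm_apply] at h'
      show γ' σ = (e (γ (σ * (dist x y / dist (e x).1 (e y).1)))).1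
      rw [← h']
      congr 1
      field_simp
    · intro s hs
      exact ⟨_, hin _ (hmem s hs), rfl⟩

end Pool.Agent.Y830.LS
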