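import Pool.Agent.Y830.LS.Fin
import Pool.Agent.Y830.LS.Prod

/-!
Riemannian products of spaces with small geodesically convex subsets.
-/

set_option autoImplicit false

open MeasureTheory InnerProductGeometry Filter Topology

namespace Pool.Agent.Y830.LS

open Pool.Agent.H608R3.Lens

/-- `M` is compact and connected, its volume is finite and positive, and every geodesically
convex subset of `M` has volume less than `c` times the volume of `M` -/
def SmallConvexSets (c : ENNReal) (M : Type) [MetricSpace M] [MeasurableSpace M]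
    (vol : Measure M) : Prop :=
  CompactSpace M ∧ ConnectedSpace M ∧ 0 < vol Set.univ ∧ vol Set.univ < ⊤ ∧
    ∀ Γ : Set M, GeodesicallyConvex Γ → vol Γ < c * vol Set.univ

/-- `M`, with its distance and the measure `vol`, is the Riemannian product of `M₁` and `M₂`:
`M` is the set of pairs, the square of the distance is the sum of the squares of the two
distances, and `vol` is the product measure -/
def IsRiemannianProduct (M : Type) [MetricSpace M] [MeasurableSpace M] (vol : Measure M)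
    (M₁ : Type) [MetricSpace M₁] [MeasurableSpace M₁] (vol₁ : Measure M₁)
    (M₂ : Type) [MetricSpace M₂] [MeasurableSpace M₂] (vol₂ : Measure M₂) : Prop :=
  ∃ e : M ≃ᵐ M₁ × M₂,
    (∀ x y, dist x y ^ 2 = dist (e x).1 (e y).1 ^ 2 + dist (e x).2 (e y).2 ^ 2) ∧
    vol = Measure.map e.symm (vol₁.prod vol₂)

/-- `M`, with its distance and the measure `vol`, is the Riemannian product of two spherical
space forms of dimensions `a` and `b` -/
def IsProductOfSpaceForms (a b : ℕ) (M : Type) [MetricSpace M] [MeasurableSpace M]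
    (vol : Measure M) : Prop :=
  ∃ (M₁ : Type) (_ : MetricSpace M₁) (_ : MeasurableSpace M₁) (_ : BorelSpace M₁)
    (vol₁ : Measure M₁) (M₂ : Type) (_ : MetricSpace M₂) (_ : MeasurableSpace M₂)
    (_ : BorelSpace M₂) (vol₂ : Measure M₂),
    IsSphericalSpaceForm a M₁ vol₁ ∧ IsSphericalSpaceForm b M₂ vol₂ ∧
    IsRiemannianProduct M vol M₁ vol₁ M₂ vol₂

theorem product_small {c : ENNReal} (M₁ : Type) [MetricSpace M₁] [MeasurableSpace M₁]
    [BorelSpace M₁] (vol₁ : Measure M₁) (h₁ : SmallConvexSets c M₁ vol₁)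
    (N : Type) [MetricSpace N] [MeasurableSpace N] [BorelSpace N] (ν : Measure N)
    (hN1 : CompactSpace N) (hN2 : ConnectedSpace N) (hN3 : 0 < ν Set.univ)
    (hN4 : ν Set.univ < ⊤) :
    ∃ (M : Type) (_ : MetricSpace M) (_ : MeasurableSpace M) (_ : BorelSpace M)
      (vol : Measure M), IsRiemannianProduct M vol M₁ vol₁ N ν ∧ SmallConvexSets c M vol := by
  obtain ⟨hc1, hc2, hv0, hv1, hsmall⟩ := h₁
  have hf1 : IsFiniteMeasure vol₁ := ⟨hv1⟩
  have hf2 : IsFiniteMeasure ν := ⟨hN4⟩
  have hs1 : SecondCountableTopology M₁ := inferInstance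
  have hs2 : SecondCountableTopology N := inferInstance
  have hd : ∀ x y : WithLp 2 (M₁ × N), dist x y ^ 2
      = dist (((MeasurableEquiv.toLp 2 (M₁ × N)).symm) x).1
        (((MeasurableEquiv.toLp 2 (M₁ × N)).symm) y).1 ^ 2
      + dist (((MeasurableEquiv.toLp 2 (M₁ × N)).symm) x).2
        (((MeasurableEquiv.toLp 2 (M₁ × N)).symm) y).2 ^ 2 := by
    intro x y
    rw [WithLp.prod_dist_eq_add (by norm_num)]
    have h2 : (2 : ENNReal).toReal = ((2 : ℕ) : ℝ) := by norm_num
    rw [h2, Real.rpow_natCast, Real.rpow_natCast, ← Real.rpow_natCast _ 2, ← Real.rpow_mul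
      (by positivity), one_div, inv_mul_cancel₀ (by norm_num), Real.rpow_one]
    rfl
  have hpr : ∀ A : Set (WithLp 2 (M₁ × N)),
      Measure.map (MeasurableEquiv.toLp 2 (M₁ × N)) (vol₁.prod ν) A
        = (vol₁.prod ν) ((MeasurableEquiv.toLp 2 (M₁ × N)) ⁻¹' A) :=
    fun A => MeasurableEquiv.map_apply _ A
  have huniv : Measure.map (MeasurableEquiv.toLp 2 (M₁ × N)) (vol₁.prod ν) Set.univ
      = vol₁ Set.univ * ν Set.univ := by
    rw [hpr, Set.preimage_univ, ← Set.univ_prod_univ, Measure.prod_prod]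
  refine ⟨WithLp 2 (M₁ × N), inferInstance, inferInstance, inferInstance,
    Measure.map (MeasurableEquiv.toLp 2 (M₁ × N)) (vol₁.prod ν),
    ⟨(MeasurableEquiv.toLp 2 (M₁ × N)).symm, hd, ?_⟩, ?_, ?_, ?_, ?_, ?_⟩
  · rw [MeasurableEquiv.symm_symm]
  · exact (WithLp.homeomorphProd 2 M₁ N).symm.compactSpace
  · exact (WithLp.homeomorphProd 2 M₁ N).symm.surjective.connectedSpace
      (WithLp.homeomorphProd 2 M₁ N).symm.continuous
  · rw [huniv]
    exact ENNReal.mul_pos hv0.ne' hN3.ne'
  · rw [huniv]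
    exact ENNReal.mul_lt_top hv1 hN4
  · intro Γ hΓ
    have h1 := convex_fst ((MeasurableEquiv.toLp 2 (M₁ × N)).symm.toEquiv) hd hΓ
    have h2 := hsmall _ h1
    rw [huniv, hpr]
    calc (vol₁.prod ν) ((MeasurableEquiv.toLp 2 (M₁ × N)) ⁻¹' Γ)
        ≤ (vol₁.prod ν) (((fun x => ((MeasurableEquiv.toLp 2 (M₁ × N)).symm.toEquiv x).1) '' Γ)
            ×ˢ Set.univ) := by
          apply measure_mono
          intro z hz
          refine ⟨⟨_, hz, ?_⟩, trivial⟩
          show ((MeasurableEquiv.toLp 2 (M₁ × N)).symm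
            ((MeasurableEquiv.toLp 2 (M₁ × N)) z)).1 = z.1
          rw [MeasurableEquiv.symm_apply_apply]
      _ = vol₁ ((fun x => ((MeasurableEquiv.toLp 2 (M₁ × N)).symm.toEquiv x).1) '' Γ)
            * ν Set.univ := Measure.prod_prod _ _
      _ < c * vol₁ Set.univ * ν Set.univ :=
          (ENNReal.mul_lt_mul_iff_left hN3.ne' hN4.ne).2 h2
      _ = c * (vol₁ Set.univ * ν Set.univ) := mul_assoc _ _ _

/-- the round sphere is a spherical space form -/
theorem exists_sphere (b : ℕ) (hb : 1 ≤ b) :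
    ∃ (N : Type) (_ : MetricSpace N) (_ : MeasurableSpace N) (_ : BorelSpace N)
      (ν : Measure N), IsSphericalSpaceForm b N ν ∧ CompactSpace N ∧ ConnectedSpace N ∧
      0 < ν Set.univ ∧ ν Set.univ < ⊤ := by
  have hσ0 : (volume : Measure (EuclideanSpace ℝ (Fin (b + 1)))).toSphere Set.univ ≠ 0 := by
    rw [Measure.measure_univ_ne_zero]
    exact Measure.toSphere_ne_zero _
  have hσ1 : (volume : Measure (EuclideanSpace ℝ (Fin (b + 1)))).toSphere Set.univ ≠ ⊤ :=
    measure_ne_top _ _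
  obtain ⟨G, hG⟩ : ∃ G : Subgroup (EuclideanSpace ℝ (Fin (b + 1)) ≃ₗᵢ[ℝ]
    EuclideanSpace ℝ (Fin (b + 1))), G = ⊥ := ⟨_, rfl⟩
  have : Finite G := by
    rw [hG]
    infer_instance
  let _ : MeasurableSpace (Quo G) := borel _
  have : BorelSpace (Quo G) := ⟨rfl⟩
  have := connected_sphereK (d := b + 1) (by omega)
  have hcard0 : (Nat.card G : ENNReal)⁻¹ ≠ 0 := by
    apply ENNReal.inv_ne_zero.2
    exact ENNReal.natCast_ne_top _
  have hcard1 : (Nat.card G : ENNReal)⁻¹ ≠ ⊤ := by
    apply ENNReal.inv_ne_top.2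
    have := Nat.card_pos (α := G)
    exact_mod_cast this.ne'
  have hmeas : Measurable (proj G) := (proj_continuous G).measurable
  have huniv : ((Nat.card G : ENNReal)⁻¹ •
      Measure.map (proj G) (volume : Measure (EuclideanSpace ℝ (Fin (b + 1)))).toSphere) Set.univ
      = (Nat.card G : ENNReal)⁻¹ *
      (volume : Measure (EuclideanSpace ℝ (Fin (b + 1)))).toSphere Set.univ := by
    rw [Measure.smul_apply, Measure.map_apply hmeas MeasurableSet.univ, Set.preimage_univ,
      smul_eq_mul]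
  refine ⟨Quo G, inferInstance, inferInstance, inferInstance, (Nat.card G : ENNReal)⁻¹ •
      Measure.map (proj G) (volume : Measure (EuclideanSpace ℝ (Fin (b + 1)))).toSphere,
    ⟨G, proj G, inferInstance, ?_, proj_surjective G, ?_, rfl⟩, ?_, ?_, ?_, ?_⟩
  · intro g hg x _ _
    rw [hG] at hg
    exact Subgroup.mem_bot.1 hg
  · intro x y
    rw [dist_proj]
    exact qdist_isLeast G x y
  · refine ⟨?_⟩
    rw [← (proj_surjective G).range_eq]
    exact isCompact_range (proj_continuous G)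
  · exact (proj_surjective G).connectedSpace (proj_continuous G)
  · rw [huniv]
    exact ENNReal.mul_pos hcard0 hσ0
  · rw [huniv]
    exact ENNReal.mul_lt_top (lt_top_iff_ne_top.2 hcard1) (lt_top_iff_ne_top.2 hσ1)

theorem small_odd (m : ℕ) (hm : 1 ≤ m) (c : ENNReal) (hc : 0 < c) :
    ∃ (M : Type) (_ : MetricSpace M) (_ : MeasurableSpace M) (_ : BorelSpace M)
      (vol : Measure M), IsSphericalSpaceForm (2 * m + 1) M vol ∧ SmallConvexSets c M vol := by
  obtain ⟨k, rfl⟩ := Nat.exists_eq_add_of_le' hm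
  obtain ⟨M, i1, i2, i3, vol, h1, h2, h3, h4, h5, h6⟩ := mainK k c hc
  exact ⟨M, i1, i2, i3, vol, h3, h1, h2, h4, h5, h6⟩

theorem small_all (n : ℕ) (hn : 3 ≤ n) (_hn4 : n ≠ 4) (c : ENNReal) (hc : 0 < c) :
    ∃ (M : Type) (_ : MetricSpace M) (_ : MeasurableSpace M) (_ : BorelSpace M)
      (vol : Measure M), SmallConvexSets c M vol ∧
      (Odd n → IsSphericalSpaceForm n M vol) ∧
      (Even n → IsProductOfSpaceForms 3 (n - 3) M vol) := by
  rcases Nat.even_or_odd n with he | ho
  · obtain ⟨M₁, i1, i2, i3, vol₁, hf, hs⟩ := small_odd 1 le_rfl c hc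
    obtain ⟨t, ht⟩ := he
    obtain ⟨N, j1, j2, j3, ν, hN, k1, k2, k3, k4⟩ := exists_sphere (n - 3) (by omega)
    obtain ⟨M, l1, l2, l3, vol, hp, hq⟩ := product_small M₁ vol₁ hs N ν k1 k2 k3 k4
    refine ⟨M, l1, l2, l3, vol, hq, ?_, ?_⟩
    · intro ho
      rw [ht, ← two_mul] at ho
      exact absurd ho (by simp)
    · intro _
      exact ⟨M₁, i1, i2, i3, vol₁, N, j1, j2, j3, ν, hf, hN, hp⟩
  · obtain ⟨m, hm⟩ := ho
    obtain ⟨M, i1, i2, i3, vol, hf, hs⟩ := small_odd m (by omega) c hc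
    refine ⟨M, i1, i2, i3, vol, hs, ?_, ?_⟩
    · intro _
      rw [hm]
      exact hf
    · intro he
      rw [hm] at he
      exact absurd he (by simp [parity_simps])

end Pool.Agent.Y830.LS
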