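import Pool.Agent.Y830.LS.Cx

/-!
A geodesically convex subset of the lens space lies in a thin neighbourhood of a
hypersurface.
-/

set_option autoImplicit false

open MeasureTheory InnerProductGeometry Filter Topology ComplexConjugate

namespace Pool.Agent.Y830.LS

open Pool.Agent.H608R3.Lens

/-- a set of vectors with almost real mutual products lies in a thin strip -/
lemma stripK {W : Type} [NormedAddCommGroup W] [InnerProductSpace ℂ W] {a : W}
    (hd : ∃ b : W, ‖b‖ = 1 ∧ inner ℂ a b = (0 : ℂ)) (B : Set W) {δ : ℝ} (hδ : 0 ≤ δ)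
    (hB : ∀ v ∈ B, inner ℂ a v = (0 : ℂ))
    (h : ∀ u ∈ B, ∀ v ∈ B, |(inner ℂ u v : ℂ).im| ≤ δ) :
    ∃ b : W, ‖b‖ = 1 ∧ inner ℂ a b = (0 : ℂ) ∧
      ∀ v ∈ B, |(inner ℂ b v : ℂ).im| ≤ Real.sqrt δ := by
  by_cases hsmall : ∀ v ∈ B, ‖v‖ ≤ Real.sqrt δ
  · obtain ⟨b, hb, hab⟩ := hd
    refine ⟨b, hb, hab, fun v hv => ?_⟩
    calc |(inner ℂ b v : ℂ).im| ≤ ‖(inner ℂ b v : ℂ)‖ := Complex.abs_im_le_norm _
      _ ≤ ‖b‖ * ‖v‖ := norm_inner_le_norm _ _
      _ ≤ Real.sqrt δ := by rw [hb, one_mul]; exact hsmall v hv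
  · push Not at hsmall
    obtain ⟨u, hu, hun⟩ := hsmall
    have hupos : 0 < ‖u‖ := (Real.sqrt_nonneg δ).trans_lt hun
    refine ⟨((‖u‖⁻¹ : ℝ) : ℂ) • u, ?_, ?_, ?_⟩
    · rw [norm_smul, Complex.norm_real, norm_inv, norm_norm, inv_mul_cancel₀ hupos.ne']
    · rw [inner_smul_right, hB u hu, mul_zero]
    · intro v hv
      rw [inner_smul_left, Complex.conj_ofReal, Complex.im_ofReal_mul, abs_mul,
        abs_of_pos (inv_pos.2 hupos), inv_mul_le_iff₀ hupos]
      have h1 := h u hu v hv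
      have h2 : Real.sqrt δ * Real.sqrt δ = δ := Real.mul_self_sqrt hδ
      have h3 := mul_le_mul_of_nonneg_right hun.le (Real.sqrt_nonneg δ)
      linarith

variable {k : ℕ}

/-- extension of an orthonormal pair -/
lemma exists_basis2 {a b : EuclideanSpace ℂ (Fin (k + 2))} (ha : ‖a‖ = 1) (hb : ‖b‖ = 1)
    (hab : inner ℂ a b = (0 : ℂ)) :
    ∃ e : OrthonormalBasis (Fin (k + 2)) ℂ (EuclideanSpace ℂ (Fin (k + 2))),
      e 0 = a ∧ e 1 = b := by
  classical
  have h01 : (0 : Fin (k + 2)) ≠ 1 := by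
    intro h
    have := congrArg Fin.val h
    simp at this
  have hba : inner ℂ b a = (0 : ℂ) := by
    rw [← inner_conj_symm, hab, map_zero]
  have hv : Orthonormal ℂ (({0, 1} : Set (Fin (k + 2))).domRestrict
      (fun i : Fin (k + 2) => if i = 0 then a else b)) := by
    constructor
    · rintro ⟨i, hi⟩
      simp only [Set.domRestrict_apply]
      split_ifs
      · exact ha
      · exact hb
    · rintro ⟨i, hi⟩ ⟨j, hj⟩ hij
      simp only [Set.domRestrict_apply]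
      have hij' : i ≠ j := fun h => hij (Subtype.ext h)
      rcases hi with rfl | rfl
      · rcases hj with rfl | rfl
        · exact absurd rfl hij'
        · rw [if_pos rfl, if_neg h01.symm]
          exact hab
      · rcases hj with rfl | rfl
        · rw [if_pos rfl, if_neg h01.symm]
          exact hba
        · exact absurd rfl hij'
  obtain ⟨e, he⟩ := hv.exists_orthonormalBasis_extension_of_card_eq (by simp)
  refine ⟨e, ?_, ?_⟩
  · rw [he 0 (by simp), if_pos rfl]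
  · rw [he 1 (by simp), if_neg h01.symm]

/-- a unit vector orthogonal to a given one -/
lemma exists_orth {a : EuclideanSpace ℂ (Fin (k + 2))} (ha : ‖a‖ = 1) :
    ∃ b : EuclideanSpace ℂ (Fin (k + 2)), ‖b‖ = 1 ∧ inner ℂ a b = (0 : ℂ) := by
  classical
  have h01 : (0 : Fin (k + 2)) ≠ 1 := by
    intro h
    have := congrArg Fin.val h
    simp at this
  have hv : Orthonormal ℂ (({0} : Set (Fin (k + 2))).domRestrict
      (fun _ : Fin (k + 2) => a)) := by
    constructor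
    · rintro ⟨i, hi⟩
      exact ha
    · rintro ⟨i, hi⟩ ⟨j, hj⟩ hij
      exact absurd (Subtype.ext ((Set.mem_singleton_iff.1 hi).trans
        (Set.mem_singleton_iff.1 hj).symm)) hij
  obtain ⟨e, he⟩ := hv.exists_orthonormalBasis_extension_of_card_eq (by simp)
  refine ⟨e 1, e.orthonormal.1 1, ?_⟩
  rw [← he 0 (by simp)]
  exact e.orthonormal.2 h01

/-- a complex linear isometry regarded as a real one -/
noncomputable def toReal {W : Type} [NormedAddCommGroup W] [InnerProductSpace ℂ W]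
    (V : W ≃ₗᵢ[ℂ] W) : W ≃ₗᵢ[ℝ] W where
  toLinearEquiv := V.toLinearEquiv.restrictScalars ℝ
  norm_map' := V.norm_map

lemma toReal_apply {W : Type} [NormedAddCommGroup W] [InnerProductSpace ℂ W]
    (V : W ≃ₗᵢ[ℂ] W) (w : W) : toReal V w = V w := rfl

variable {E : Type} [NormedAddCommGroup E] [InnerProductSpace ℝ E]
  (Φ : E ≃ₗᵢ[ℝ] EuclideanSpace ℂ (Fin (k + 2)))

/-- the imaginary part function `Im (conj z₀ z₁)` -/
noncomputable def FK (z : E) : ℝ := (conj ((Φ z) 0) * (Φ z) 1).im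

/-- the unitary change of coordinates -/
noncomputable def chgK (e : OrthonormalBasis (Fin (k + 2)) ℂ (EuclideanSpace ℂ (Fin (k + 2)))) :
    E ≃ₗᵢ[ℝ] E := Φ.trans ((toReal e.repr).trans Φ.symm)

lemma Phi_chgK (e : OrthonormalBasis (Fin (k + 2)) ℂ (EuclideanSpace ℂ (Fin (k + 2)))) (z : E) :
    Φ (chgK Φ e z) = e.repr (Φ z) := by
  show Φ (Φ.symm (toReal e.repr (Φ z))) = _
  rw [LinearIsometryEquiv.apply_symm_apply]
  rfl

lemma FK_chgK (e : OrthonormalBasis (Fin (k + 2)) ℂ (EuclideanSpace ℂ (Fin (k + 2)))) (z : E) :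
    FK Φ (chgK Φ e z) =
      (conj (inner ℂ (e 0) (Φ z) : ℂ) * inner ℂ (e 1) (Φ z)).im := by
  rw [FK, Phi_chgK, e.repr_apply_apply, e.repr_apply_apply]

lemma FK_chgK_rt (e : OrthonormalBasis (Fin (k + 2)) ℂ (EuclideanSpace ℂ (Fin (k + 2))))
    (u : Circle) (z : E) : FK Φ (chgK Φ e (rt Φ u z)) = FK Φ (chgK Φ e z) := by
  rw [FK_chgK, FK_chgK, Phi_rt, inner_smul_right, inner_smul_right, map_mul]
  congr 1
  have h2 : (u : ℂ) * conj (u : ℂ) = 1 := by
    rw [Complex.mul_conj, Circle.normSq_coe]; simp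
  calc conj (u : ℂ) * conj (inner ℂ (e 0) (Φ z) : ℂ) * ((u : ℂ) * inner ℂ (e 1) (Φ z))
      = ((u : ℂ) * conj (u : ℂ)) *
        (conj (inner ℂ (e 0) (Φ z) : ℂ) * inner ℂ (e 1) (Φ z)) := by ring
    _ = _ := by rw [h2, one_mul]

/-- a nonempty geodesically convex set lies in a thin set -/
lemma convex_thinK {p : ℕ} (hp : 3 ≤ p) [Finite (Gk Φ p)] (hτ : tau p ≤ 1)
    {Γ : Set (Quo (Gk Φ p))} (hΓ : GeodesicallyConvex Γ) (hne : Γ.Nonempty) :
    ∃ e : OrthonormalBasis (Fin (k + 2)) ℂ (EuclideanSpace ℂ (Fin (k + 2))),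
      ∀ z : Metric.sphere (0 : E) 1,
      proj (Gk Φ p) z ∈ Γ → |FK Φ (chgK Φ e z)| ≤ Real.sqrt (4 * tau p) := by
  obtain ⟨q, hq⟩ := hne
  obtain ⟨x, rfl⟩ := proj_surjective (Gk Φ p) q
  have nx := norm_sphere x
  have nΦ : ‖Φ x‖ = 1 := by rw [Φ.norm_map, nx]
  obtain ⟨b, hb, hab, hB⟩ := stripK (exists_orth nΦ)
    {v | ∃ z : Metric.sphere (0 : E) 1, proj (Gk Φ p) z ∈ Γ ∧ v = bt Φ x z} (δ := 4 * tau p)
    (by have := tau_pos hp; linarith) (by
      rintro _ ⟨z, -, rfl⟩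
      exact bt_orth Φ nx z) (by
      rintro _ ⟨y, hy, rfl⟩ _ ⟨z, hz, rfl⟩
      rw [← triple_eqK Φ nx]
      exact triple_boundK Φ hp hτ hΓ hq hy hz)
  obtain ⟨e, he0, he1⟩ := exists_basis2 nΦ hb hab
  refine ⟨e, ?_⟩
  intro z hz
  have h1 := hB _ ⟨z, hz, rfl⟩
  have hba : inner ℂ b (Φ x) = (0 : ℂ) := by
    rw [← inner_conj_symm, hab, map_zero]
  have h2 : inner ℂ b (bt Φ x z) = conj (inner ℂ (Φ x) (Φ z) : ℂ) * inner ℂ b (Φ z) := by
    rw [bt, inner_smul_right, inner_sub_right, inner_smul_right, hba, mul_zero, sub_zero]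
    rfl
  rw [FK_chgK, he0, he1, ← h2]
  exact h1

end Pool.Agent.Y830.LS
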